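import Pool.Agent.Lib.MP_5771ce_al.Final
import Pool.Agent.Lib.MP_5771ce_al.NoMC

set_option autoImplicit false

/-!
No finite nonabelian simple group `G` has a hereditarily `G`-permutable subgroup `A` with
`1 ≠ A ≠ G`.  The proof does not use the classification of the finite simple groups.

(The library file `Pool/Agent/Lib/MP_5771ce_al/Final.lean` has the general form: for every finite
group `G` and every hereditarily `G`-permutable subgroup `A`, with core `A_G` and normal closure
`A^G`, the group `A^G / A_G` is soluble.)
-/

universe u

namespace Pool.Agent.Results.MP_5771ce_al.NoSimpleGroup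

open _root_.MP_5771ce_al

theorem result (G : Type u) [Group G] [Finite G] [IsSimpleGroup G]
    (hna : ∃ a b : G, a * b ≠ b * a) (A : Subgroup G) (hA : HerPermutable A) :
    A = ⊥ ∨ A = ⊤ :=
  no_simple no_MC G hna A hA

end Pool.Agent.Results.MP_5771ce_al.NoSimpleGroup
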